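import Pool.Agent.H15.LU.Targets

/-!
Module JAN of the board lu (MP_812e67_ag): analytic roots.
-/

open Topology Filter

namespace Pool.Agent.H2.LU.JAN

open Pool.Agent.H15.LU

theorem root {E : Type*} [NormedAddCommGroup E] [NormedSpace ℂ E] (w : E → ℂ) (x0 : E)
    (hw : AnalyticAt ℂ w x0) (h0 : w x0 ≠ 0) (n : ℕ) (hn : 0 < n) :
    ∃ r : E → ℂ, AnalyticAt ℂ r x0 ∧ r x0 ≠ 0 ∧ ∀ᶠ p in 𝓝 x0, r p ^ n = w p := by
  obtain ⟨r0, hr0⟩ := IsAlgClosed.exists_pow_nat_eq (w x0) hn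
  have hr0' : r0 ≠ 0 := by
    rintro rfl
    rw [zero_pow hn.ne'] at hr0
    exact h0 hr0.symm
  have hd : AnalyticAt ℂ (fun p => w p / w x0) x0 := hw.div analyticAt_const h0
  have hs : (fun p => w p / w x0) x0 ∈ Complex.slitPlane := by
    simp only [div_self h0]
    exact Complex.one_mem_slitPlane
  have hl : AnalyticAt ℂ (fun p => Complex.log (w p / w x0)) x0 := hd.clog hs
  refine ⟨fun p => r0 * Complex.exp ((1 / (n : ℂ)) * Complex.log (w p / w x0)), ?_, ?_, ?_⟩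
  · exact analyticAt_const.mul ((analyticAt_const.mul hl).cexp)
  · exact mul_ne_zero hr0' (Complex.exp_ne_zero _)
  · have hne : ∀ᶠ p in 𝓝 x0, w p ≠ 0 := hw.continuousAt.eventually_ne h0
    filter_upwards [hne] with p hp
    have hn' : (n : ℂ) ≠ 0 := by exact_mod_cast hn.ne'
    rw [mul_pow, hr0, ← Complex.exp_nat_mul]
    have e : (n : ℂ) * (1 / (n : ℂ) * Complex.log (w p / w x0)) = Complex.log (w p / w x0) := by
      field_simp
    rw [e, Complex.exp_log (div_ne_zero hp h0)]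
    field_simp

theorem jan : T_JAN := by
  intro t ht
  have hp : ∀ i : Fin 3, AnalyticAt ℂ (fun p : Fin 3 → ℂ => p i) 0 := fun i =>
    (ContinuousLinearMap.proj (R := ℂ) (φ := fun _ : Fin 3 => ℂ) i).analyticAt 0
  have h1 : AnalyticAt ℂ (fun p : Fin 3 → ℂ => p 1 + t) 0 := (hp 1).add analyticAt_const
  have h1n : (fun p : Fin 3 → ℂ => p 1 + t) 0 ≠ 0 := by simpa using ht
  have h2 : AnalyticAt ℂ (fun p : Fin 3 → ℂ => t - p 0 / (4 * (p 1 + t))) 0 := by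
    refine analyticAt_const.sub ((hp 0).div (analyticAt_const.mul h1) ?_)
    exact mul_ne_zero (by norm_num) h1n
  have h2n : (fun p : Fin 3 → ℂ => t - p 0 / (4 * (p 1 + t))) 0 ≠ 0 := by simpa using ht
  obtain ⟨G, hG1, hG2, hG3⟩ := root _ _ h2 h2n 3 (by norm_num)
  have h3 : AnalyticAt ℂ (fun p : Fin 3 → ℂ => (p 1 + t) / G p) 0 := h1.div hG1 hG2
  have h3n : (fun p : Fin 3 → ℂ => (p 1 + t) / G p) 0 ≠ 0 := div_ne_zero h1n hG2
  obtain ⟨H, hH1, hH2, hH3⟩ := root _ _ h3 h3n 4 (by norm_num)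
  obtain ⟨S, hS1, hS2, hS3⟩ := root _ _ h1 h1n 2 (by norm_num)
  refine ⟨G, H, S, hG1, hH1, hS1, hG2, hH2, hS2, ?_⟩
  filter_upwards [h1.continuousAt.eventually_ne h1n, hG1.continuousAt.eventually_ne hG2, hG3, hH3,
    hS3] with p a1 a2 a3 a4 a5
  exact ⟨a1, a2, a3, a4, a5⟩

end Pool.Agent.H2.LU.JAN
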